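import Pool.Agent.H57.AR.Targets
import Pool.Agent.H44.SO.Basic

/-!
# There are determining positions, weaker hypotheses (row JNEW of ar_modules)
-/

set_option autoImplicit false

namespace Pool.Agent.H66.AR

open Pool.Agent.H57.AR
open Pool.Agent.H68.BP Pool.Agent.H58.SF Pool.Agent.H53.GC Pool.Agent.H53.NR Pool.Agent.H53.GR
open Pool.Agent.H57.SO (Pal Col vt Exa Sb FBl Sbn Bh fib sigF Same Uni Can Stp)
open Pool.Agent.H44.SO (ZS JS Loc OfT LInj sig0 str0 B2)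
open Function

theorem pf_JNEW : T_JNEW := by
  classical
  intro σ V S X _ P 𝔸 M c hS h hcore s κ J hJ
  rw [Set.nonempty_iff_ne_empty]
  rintro rfl
  obtain ⟨v0, hv0⟩ := hS.col.surS s
  obtain ⟨f, hf1, hf3, hf2⟩ := Pool.Agent.H44.SO.pf_CFG σ V S X P 𝔸 M c hS (Set.range κ × Bool) ℕ
    (fun w => 2 * (w.1 : ℕ) + (if w.2 then 1 else 0)) (fun _ => s) (fun _ _ => P.fr s s) (by
      rintro ⟨⟨a, ha⟩, b⟩ ⟨⟨a', ha'⟩, b'⟩ h1
      simp only at h1
      have h2 : a = a' ∧ b = b' := by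
        cases b <;> cases b' <;> simp at h1 ⊢ <;> omega
      obtain ⟨rfl, rfl⟩ := h2
      rfl) (fun _ _ _ => (P.rv_fr s s).symm)
    (fun K hK => ⟨fun _ => v0, fun _ _ => hv0,
      fun x hx y hy hne => absurd rfl (hK x hx y hy hne)⟩)
  have hlt : ∀ (l l' : Fin 6) (b b' : Bool), κ l < κ l' →
      f (⟨κ l, l, rfl⟩, b) < f (⟨κ l', l', rfl⟩, b') := by
    intro l l' b b' h1
    apply (hf1 _ _).2
    show 2 * κ l + (if b then 1 else 0) < 2 * κ l' + (if b' then 1 else 0)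
    split_ifs <;> omega
  have hne : ∀ (l l' : Fin 6) (b b' : Bool), κ l < κ l' →
      c (f (⟨κ l, l, rfl⟩, b)) (f (⟨κ l', l', rfl⟩, b')) = Sum.inr (P.fr s s) := by
    intro l l' b b' h1
    apply hf2
    intro h2
    have h3 : κ l = κ l' := congrArg (fun w : Set.range κ × Bool => (w.1 : ℕ)) h2
    omega
  have hfb : ∀ b : Bool, FBl P c s (fun l : Fin 6 => f (⟨κ l, l, rfl⟩, b)) := fun b =>
    ⟨fun l => hf3 _, fun l l' h1 => hf2 _ _ fun h2 => h1 (congrArg f h2)⟩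
  have hZ : ZS P c s κ (fun l => f (⟨κ l, l, rfl⟩, false)) (fun l => f (⟨κ l, l, rfl⟩, true)) := by
    refine ⟨fun l => ⟨hf3 _, hf3 _⟩, fun l l' h1 => ?_, fun l l' h1 => ?_, fun l l' h1 => ?_⟩
    · have h2 : (⟨κ l, l, rfl⟩ : Set.range κ) = ⟨κ l', l', rfl⟩ := Subtype.ext h1
      constructor
      · show f (⟨κ l, l, rfl⟩, false) = f (⟨κ l', l', rfl⟩, false)
        rw [h2]
      · show f (⟨κ l, l, rfl⟩, true) = f (⟨κ l', l', rfl⟩, true)
        rw [h2]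
    · exact ⟨hlt l l' _ _ h1, hlt l l' _ _ h1, hlt l l' _ _ h1, hlt l l' _ _ h1⟩
    · exact ⟨hne l l' _ _ h1, hne l l' _ _ h1, hne l l' _ _ h1, hne l l' _ _ h1⟩
  obtain ⟨s', hs'⟩ := (hJ _ _ hZ).2 fun l hl => absurd hl (Set.notMem_empty l)
  refine hcore.ncol s _ _ (hfb false) (hfb true) ?_ s' hs'
  intro l l'
  rcases lt_trichotomy (κ l) (κ l') with h1 | h1 | h1
  · exact (hlt l l' false true h1).ne
  · refine ((hf1 _ _).2 ?_).ne
    show 2 * κ l + (if false then 1 else 0) < 2 * κ l' + (if true then 1 else 0)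
    rw [h1]
    simp
  · exact (hlt l' l true false h1).ne'

end Pool.Agent.H66.AR
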